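import Pool.Agent.H543.MQ.U.Gold
import Pool.Agent.H543.MQ.R.R3
import Pool.Graph.R_seed8.H305R2.MertensE

/-!
# Schinzel's Goldbach-type problem with almost primes, for every large admissible `N`
-/

set_option autoImplicit false
set_option linter.unusedSectionVars false

namespace Pool.Agent.Results.MP_0bf1d2_nt.AlmostPrimesForEveryN

open Finset Filter Polynomial

/-- The value of `F₁ = A X ^ 2 + B X + C`. -/
def val (A B C x : ℤ) : ℤ := A * x ^ 2 + B * x + C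

/-- `F (N - G)` has no fixed prime divisor; here `F = F₁ ∏ i, F i`. -/
def Admissible (A B C : ℤ) {k : ℕ} (F : Fin k → ℤ[X]) (G : ℤ[X]) (N : ℕ) : Prop :=
  ∀ p : ℕ, p.Prime → ∃ n : ℤ, ¬ (p : ℤ) ∣ val A B C n * (∏ i, (F i).eval n) * (N - G.eval n)

/-- All values at `n` are positive, `F₁ n` has at most two prime factors, the other `F i n` and
`N - G n` have at most `r` prime factors (counted with multiplicity). -/
def Rep (A B C : ℤ) {k : ℕ} (F : Fin k → ℤ[X]) (G : ℤ[X]) (r N n : ℕ) : Prop :=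
  0 < val A B C n ∧ (val A B C n).natAbs.primeFactorsList.length ≤ 2 ∧
  (∀ i, 0 < (F i).eval (n : ℤ) ∧ ((F i).eval (n : ℤ)).natAbs.primeFactorsList.length ≤ r) ∧
  G.eval (n : ℤ) < N ∧ (N - G.eval (n : ℤ)).natAbs.primeFactorsList.length ≤ r

/-- The page's `X(N)`: the number of the positive integers `n` with `N - G n > 0`. -/
noncomputable def X' (G : ℤ[X]) (N : ℕ) : ℕ := Set.ncard {n : ℕ | 1 ≤ n ∧ G.eval (n : ℤ) < N}

/-- The analogue of the page's `Q₁(N)`. -/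
noncomputable def Q (A B C : ℤ) {k : ℕ} (F : Fin k → ℤ[X]) (G : ℤ[X]) (r N : ℕ) : ℕ :=
  Set.ncard {n : ℕ | 1 ≤ n ∧ Rep A B C F G r N n}

/-- The page's `ω_N(p)`. -/
def omega (A B C : ℤ) {k : ℕ} (F : Fin k → ℤ[X]) (G : ℤ[X]) (N p : ℕ) : ℕ :=
  ((range p).filter (fun n : ℕ =>
    (p : ℤ) ∣ val A B C n * (∏ i, (F i).eval (n : ℤ)) * (N - G.eval (n : ℤ)))).card

/-- The partial product over the primes `p ≤ x` of the page's `𝔖(N)` (the number of the polynomials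
`F_i` and `N - G` is `k + 2`). -/
noncomputable def partialS (A B C : ℤ) {k : ℕ} (F : Fin k → ℤ[X]) (G : ℤ[X]) (N x : ℕ) : ℝ :=
  ∏ p ∈ (Icc 1 x).filter Nat.Prime,
    (1 - (omega A B C F G N p : ℝ) / p) * ((1 - 1 / (p : ℝ)) ^ (k + 2))⁻¹

open Classical in
/-- The number of the `n` in `(x, x + Z]` such that all `n + h`, `h ∈ H`, are representations. -/
noncomputable def number (A B C : ℤ) {k : ℕ} (F : Fin k → ℤ[X]) (G : ℤ[X]) (r N : ℕ)
    (H : Finset ℕ) (x Z : ℕ) : ℕ :=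
  ((Ioc x (x + Z)).filter (fun n : ℕ => ∀ h ∈ H, Rep A B C F G r N (n + h))).card

open Classical in
/-- the clusters -/
theorem clusters (A B C : ℤ) (hA : 0 < A) (hD : ¬ IsSquare (B ^ 2 - 4 * A * C)) {k : ℕ}
    (F : Fin k → ℤ[X]) (hF : ∀ i, 0 < (F i).leadingCoeff) (G : ℤ[X]) (hG : 0 < G.leadingCoeff) :
    ∃ δ₀ : ℝ, 0 < δ₀ ∧ δ₀ ≤ 1 / 100 ∧ ∀ (θ : ℝ), 0 < θ → ∀ m : ℕ, ∃ (K D r : ℕ) (δ : ℝ), 0 < δ ∧
      ∀ᶠ N : ℕ in atTop, Admissible A B C F G N →
        ∀ x : ℕ, (N : ℝ) ^ θ ≤ x → (∀ y : ℕ, y ≤ 2 * x → G.eval (y : ℤ) < N) →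
        ∀ S : Finset ℕ, K ≤ S.card → (∀ h ∈ S, (h : ℝ) ≤ (x : ℝ) ^ δ) →
        ∀ Z : ℕ, (x : ℝ) ^ (1 - δ₀) ≤ Z → 2 * Z ≤ x → ∃ H ⊆ S, H.card = m ∧
          Z / Real.log x ^ D ≤ number A B C F G r N H x Z := by
  obtain ⟨A', rfl⟩ : ∃ A' : ℕ, A = A' := ⟨A.toNat, by omega⟩
  have hA' : 1 ≤ A' := by exact_mod_cast hA
  obtain ⟨δ₀, hδ₀, hδ₀1, hcl⟩ := Pool.Agent.H543.MQ.U.clu_poly A' B C hA' hD
  refine ⟨δ₀, hδ₀, hδ₀1, fun θ hθ m => ?_⟩
  obtain ⟨c, hc, hcl⟩ := hcl ((∑ i, (F i).natDegree) + G.natDegree)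
  obtain ⟨K, D, δ, hδ, hK, h1, -⟩ := hcl m
  -- sizes of the values
  have hbd : ∀ i, ∃ (Ki Di : ℕ), ∀ t : ℤ, |(((F i).eval t : ℤ) : ℝ)| ≤ Ki * (1 + |(t : ℝ)|) ^ Di :=
    fun i => Pool.Agent.W123.RU.Poly.eval_bound (F i)
  choose Kf Df hKD using hbd
  obtain ⟨DM, hDM⟩ : ∃ DM : ℕ, ∀ i, Df i ≤ DM := ⟨univ.sup Df, fun i => Finset.le_sup (f := Df) (mem_univ i)⟩
  obtain ⟨KM, hKM⟩ : ∃ KM : ℕ, ∀ i, Kf i ≤ KM := ⟨univ.sup Kf, fun i => Finset.le_sup (f := Kf) (mem_univ i)⟩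
  obtain ⟨r, hr⟩ : ∃ r : ℕ, max ((2 * DM + 1) / δ) (1 / θ / δ) ≤ r := exists_nat_ge _
  refine ⟨K, D, r, min δ (1 / 2), lt_min hδ (by norm_num), ?_⟩
  -- everything holds for large `x`
  have hpos : ∀ᶠ y : ℕ in atTop, ∀ i, 0 < (F i).eval (y : ℤ) :=
    eventually_all.2 fun i => Pool.Agent.H543.MQ.U.pos_ev (F i) (hF i)
  have hposG : ∀ᶠ y : ℕ in atTop, 0 < G.eval (y : ℤ) := Pool.Agent.H543.MQ.U.pos_ev G hG
  have hposv : ∀ᶠ y : ℕ in atTop, 0 < val A' B C (y : ℤ) := by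
    filter_upwards [eventually_ge_atTop (B.natAbs + C.natAbs + 1)] with y hy
    unfold val
    have h1 : (y : ℤ) ≥ |B| + |C| + 1 := by
      rw [Int.abs_eq_natAbs, Int.abs_eq_natAbs]
      exact_mod_cast hy
    have h2 : (1 : ℤ) ≤ A' := by exact_mod_cast hA'
    have h3 := neg_abs_le B
    have h4 := neg_abs_le C
    have h5 := abs_nonneg B
    have h6 := abs_nonneg C
    nlinarith [mul_nonneg (show (0 : ℤ) ≤ A' - 1 by linarith) (sq_nonneg (y : ℤ)),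
      mul_nonneg (show (0 : ℤ) ≤ B + |B| by linarith) (show (0 : ℤ) ≤ (y : ℤ) by linarith)]
  obtain ⟨y₀, hy₀⟩ := eventually_atTop.1 (hpos.and (hposG.and hposv))
  obtain ⟨x₀, hx₀⟩ := eventually_atTop.1 h1
  have hT : Tendsto (fun N : ℕ => (N : ℝ) ^ θ) atTop atTop :=
    (tendsto_rpow_atTop hθ).comp tendsto_natCast_atTop_atTop
  filter_upwards [hT.eventually_ge_atTop ((y₀ + x₀ + 3 * KM + 5 : ℕ) : ℝ), eventually_ge_atTop 1]
    with N hN hN1 hadm x hx hy S hS hSb Z hZ1 hZ2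
  have hxb : y₀ + x₀ + 3 * KM + 5 ≤ x := by
    have : ((y₀ + x₀ + 3 * KM + 5 : ℕ) : ℝ) ≤ x := hN.trans hx
    exact_mod_cast this
  have hxr : (5 : ℝ) ≤ x := by exact_mod_cast (by omega : 5 ≤ x)
  have hx0 : (0 : ℝ) < x := by linarith
  -- the companion
  obtain ⟨g, hg⟩ : ∃ g : ℤ[X], g = (∏ i, F i) * (Polynomial.C (N : ℤ) - G) := ⟨_, rfl⟩
  have hgev : ∀ n : ℤ, g.eval n = (∏ i, (F i).eval n) * (N - G.eval n) := by
    intro n
    rw [hg, eval_mul, eval_prod, eval_sub, eval_C]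
  have hgd : g.natDegree ≤ (∑ i, (F i).natDegree) + G.natDegree := by
    rw [hg]
    refine natDegree_mul_le.trans (Nat.add_le_add (natDegree_prod_le _ _) ?_)
    refine (natDegree_sub_le _ _).trans (max_le ?_ le_rfl)
    rw [natDegree_C]
    exact Nat.zero_le _
  obtain ⟨H, hH, hHm, hnum⟩ := hx₀ x (by omega) g hgd (fun p hp => by
    obtain ⟨n, hn⟩ := hadm p hp
    refine ⟨n, fun h => hn ?_⟩
    rw [hgev] at h
    rw [mul_assoc]
    exact h) S hS (fun h hh => (hSb h hh).trans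
      (Real.rpow_le_rpow_of_exponent_le (by linarith) (min_le_left _ _))) Z hZ1 hZ2
  refine ⟨H, hH, hHm, hnum.trans ?_⟩
  unfold number
  have hsub : ((Ioc x (x + Z)).filter (fun n : ℕ => ∀ h ∈ H, Pool.Agent.H543.MQ.U.Gf A' B C
      (fun n => g.eval n) x δ (n + h))).card ≤
      ((Ioc x (x + Z)).filter (fun n : ℕ => ∀ h ∈ H, Rep A' B C F G r N (n + h))).card := by
    apply card_le_card
    intro n hn
    rw [mem_filter, mem_Ioc] at hn ⊢
    refine ⟨hn.1, fun h hh => ?_⟩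
    obtain ⟨g1, g2, g3⟩ := hn.2 h hh
    have hhx : 2 * h ≤ x := by
      have e1 : (h : ℝ) ≤ (x : ℝ) ^ (1 / 2 : ℝ) := (hSb h (hH hh)).trans
        (Real.rpow_le_rpow_of_exponent_le (by linarith) (min_le_right _ _))
      have e2 : (h : ℝ) ^ 2 ≤ x := by
        calc (h : ℝ) ^ 2 ≤ ((x : ℝ) ^ (1 / 2 : ℝ)) ^ 2 := pow_le_pow_left₀ (Nat.cast_nonneg _) e1 2
          _ = x := by
              rw [← Real.rpow_natCast, ← Real.rpow_mul hx0.le]
              norm_num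
      have e3 : h ^ 2 ≤ x := by exact_mod_cast e2
      by_contra hcon
      push Not at hcon
      have e4 : h ≤ 1 ∨ 2 ≤ h := by omega
      rcases e4 with e4 | e4
      · omega
      · nlinarith
    obtain ⟨w, hw⟩ : ∃ w : ℕ, w = n + h := ⟨_, rfl⟩
    rw [← hw] at g1 g2 g3 ⊢
    have hw1 : x ≤ w := by omega
    have hw2 : w ≤ 2 * x := by omega
    obtain ⟨p1, p2, p3⟩ := hy₀ w (by omega)
    have hG2 := hy w hw2
    refine ⟨p3, g1, fun i => ⟨p1 i, ?_⟩, hG2, ?_⟩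
    · have hv : ((F i).eval (w : ℤ)).natAbs ≠ 0 := by
        have := p1 i
        omega
      apply Pool.Agent.H543.MQ.U.om_r _ x δ (2 * DM + 1) r hv (by omega) hδ ?_
        ((le_max_left _ _).trans hr)
      · intro p hp hpd
        apply g3 p hp
        show (p : ℤ) ∣ g.eval (w : ℤ)
        rw [hgev]
        exact Dvd.dvd.mul_right (dvd_trans (Int.natCast_dvd.2 hpd)
          (dvd_prod_of_mem (fun i => (F i).eval (w : ℤ)) (mem_univ i))) _
      · have e1 := hKD i (w : ℤ)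
        have e2 : ((((F i).eval (w : ℤ)).natAbs : ℕ) : ℝ) = |(((F i).eval (w : ℤ) : ℤ) : ℝ)| := by
          rw [← Int.cast_abs, Int.abs_eq_natAbs]
          simp
        rw [e2]
        refine e1.trans ?_
        have e3 : 1 + |(((w : ℕ) : ℤ) : ℝ)| ≤ (x : ℝ) ^ 2 := by
          rw [abs_of_nonneg (by positivity)]
          have : (w : ℝ) ≤ 2 * x := by exact_mod_cast hw2
          push_cast
          nlinarith
        have e4 : (Kf i : ℝ) ≤ x := by
          have : Kf i ≤ x := (hKM i).trans (by omega)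
          exact_mod_cast this
        calc (Kf i : ℝ) * (1 + |(((w : ℕ) : ℤ) : ℝ)|) ^ Df i ≤ x * ((x : ℝ) ^ 2) ^ DM := by
              apply mul_le_mul e4 _ (by positivity) hx0.le
              calc (1 + |(((w : ℕ) : ℤ) : ℝ)|) ^ Df i ≤ ((x : ℝ) ^ 2) ^ Df i :=
                    pow_le_pow_left₀ (by positivity) e3 _
                _ ≤ _ := pow_le_pow_right₀ (by nlinarith) (hDM i)
          _ = (x : ℝ) ^ ((2 * DM + 1 : ℕ) : ℝ) := by
              rw [Real.rpow_natCast]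
              ring
          _ = _ := by
              congr 1
              push_cast
              ring
    · have hv : ((N : ℤ) - G.eval (w : ℤ)).natAbs ≠ 0 := by omega
      apply Pool.Agent.H543.MQ.U.om_r _ x δ (1 / θ) r hv (by omega) hδ ?_
        ((le_max_right _ _).trans hr)
      · intro p hp hpd
        apply g3 p hp
        show (p : ℤ) ∣ g.eval (w : ℤ)
        rw [hgev]
        exact Dvd.dvd.mul_left (Int.natCast_dvd.2 hpd) _
      · have e1 : ((N : ℤ) - G.eval (w : ℤ)).natAbs ≤ N := by omega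
        have e2 : ((((N : ℤ) - G.eval (w : ℤ)).natAbs : ℕ) : ℝ) ≤ N := by exact_mod_cast e1
        refine e2.trans ?_
        have hN0 : (0 : ℝ) ≤ N := Nat.cast_nonneg N
        calc (N : ℝ) = ((N : ℝ) ^ θ) ^ (1 / θ) := by
              rw [← Real.rpow_mul hN0, mul_one_div_cancel hθ.ne', Real.rpow_one]
          _ ≤ _ := Real.rpow_le_rpow (by positivity) hx (by positivity)
  exact_mod_cast hsub

open Classical in
/-- single arguments, the right order of magnitude -/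
theorem single (A B C : ℤ) (hA : 0 < A) (hD : ¬ IsSquare (B ^ 2 - 4 * A * C)) {k : ℕ}
    (F : Fin k → ℤ[X]) (hF : ∀ i, 0 < (F i).leadingCoeff) (G : ℤ[X]) (hG : 0 < G.leadingCoeff) :
    ∃ δ₀ : ℝ, 0 < δ₀ ∧ δ₀ ≤ 1 / 100 ∧ ∀ (θ : ℝ), 0 < θ → ∃ (r : ℕ) (c : ℝ), 0 < c ∧
      ∀ᶠ N : ℕ in atTop, Admissible A B C F G N →
        ∀ x : ℕ, (N : ℝ) ^ θ ≤ x → (∀ y : ℕ, y ≤ 2 * x → G.eval (y : ℤ) < N) →
        ∀ Z : ℕ, (x : ℝ) ^ (1 - δ₀) ≤ Z → 2 * Z ≤ x →
          c * (Z * ∏ p ∈ (Icc 1 x).filter Nat.Prime, (1 - (omega A B C F G N p : ℝ) / p)) ≤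
            number A B C F G r N {0} x Z := by
  obtain ⟨A', rfl⟩ : ∃ A' : ℕ, A = A' := ⟨A.toNat, by omega⟩
  have hA' : 1 ≤ A' := by exact_mod_cast hA
  obtain ⟨δ₀, hδ₀, hδ₀1, hcl⟩ := Pool.Agent.H543.MQ.R.one_poly_q A' B C hA' hD
  refine ⟨δ₀, hδ₀, hδ₀1, fun θ hθ => ?_⟩
  obtain ⟨δ, c, hδ, hc, h1⟩ := hcl ((∑ i, (F i).natDegree) + G.natDegree)
  -- sizes of the values
  have hbd : ∀ i, ∃ (Ki Di : ℕ), ∀ t : ℤ, |(((F i).eval t : ℤ) : ℝ)| ≤ Ki * (1 + |(t : ℝ)|) ^ Di :=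
    fun i => Pool.Agent.W123.RU.Poly.eval_bound (F i)
  choose Kf Df hKD using hbd
  obtain ⟨DM, hDM⟩ : ∃ DM : ℕ, ∀ i, Df i ≤ DM := ⟨univ.sup Df, fun i => Finset.le_sup (f := Df) (mem_univ i)⟩
  obtain ⟨KM, hKM⟩ : ∃ KM : ℕ, ∀ i, Kf i ≤ KM := ⟨univ.sup Kf, fun i => Finset.le_sup (f := Kf) (mem_univ i)⟩
  obtain ⟨r, hr⟩ : ∃ r : ℕ, max ((2 * DM + 1) / δ) (1 / θ / δ) ≤ r := exists_nat_ge _
  refine ⟨r, c, hc, ?_⟩
  -- everything holds for large `x`
  have hpos : ∀ᶠ y : ℕ in atTop, ∀ i, 0 < (F i).eval (y : ℤ) :=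
    eventually_all.2 fun i => Pool.Agent.H543.MQ.U.pos_ev (F i) (hF i)
  have hposG : ∀ᶠ y : ℕ in atTop, 0 < G.eval (y : ℤ) := Pool.Agent.H543.MQ.U.pos_ev G hG
  have hposv : ∀ᶠ y : ℕ in atTop, 0 < val A' B C (y : ℤ) := by
    filter_upwards [eventually_ge_atTop (B.natAbs + C.natAbs + 1)] with y hy
    unfold val
    have h1 : (y : ℤ) ≥ |B| + |C| + 1 := by
      rw [Int.abs_eq_natAbs, Int.abs_eq_natAbs]
      exact_mod_cast hy
    have h2 : (1 : ℤ) ≤ A' := by exact_mod_cast hA'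
    have h3 := neg_abs_le B
    have h4 := neg_abs_le C
    have h5 := abs_nonneg B
    have h6 := abs_nonneg C
    nlinarith [mul_nonneg (show (0 : ℤ) ≤ A' - 1 by linarith) (sq_nonneg (y : ℤ)),
      mul_nonneg (show (0 : ℤ) ≤ B + |B| by linarith) (show (0 : ℤ) ≤ (y : ℤ) by linarith)]
  obtain ⟨y₀, hy₀⟩ := eventually_atTop.1 (hpos.and (hposG.and hposv))
  obtain ⟨x₀, hx₀⟩ := eventually_atTop.1 h1
  have hT : Tendsto (fun N : ℕ => (N : ℝ) ^ θ) atTop atTop :=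
    (tendsto_rpow_atTop hθ).comp tendsto_natCast_atTop_atTop
  filter_upwards [hT.eventually_ge_atTop ((y₀ + x₀ + 3 * KM + 5 : ℕ) : ℝ), eventually_ge_atTop 1]
    with N hN hN1 hadm x hx hy Z hZ1 hZ2
  have hxb : y₀ + x₀ + 3 * KM + 5 ≤ x := by
    have : ((y₀ + x₀ + 3 * KM + 5 : ℕ) : ℝ) ≤ x := hN.trans hx
    exact_mod_cast this
  have hxr : (5 : ℝ) ≤ x := by exact_mod_cast (by omega : 5 ≤ x)
  have hx0 : (0 : ℝ) < x := by linarith
  -- the companion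
  obtain ⟨g, hg⟩ : ∃ g : ℤ[X], g = (∏ i, F i) * (Polynomial.C (N : ℤ) - G) := ⟨_, rfl⟩
  have hgev : ∀ n : ℤ, g.eval n = (∏ i, (F i).eval n) * (N - G.eval n) := by
    intro n
    rw [hg, eval_mul, eval_prod, eval_sub, eval_C]
  have hgd : g.natDegree ≤ (∑ i, (F i).natDegree) + G.natDegree := by
    rw [hg]
    refine natDegree_mul_le.trans (Nat.add_le_add (natDegree_prod_le _ _) ?_)
    refine (natDegree_sub_le _ _).trans (max_le ?_ le_rfl)
    rw [natDegree_C]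
    exact Nat.zero_le _
  have hnum := hx₀ x (by omega) g hgd (fun p hp => by
    obtain ⟨n, hn⟩ := hadm p hp
    refine ⟨n, fun h => hn ?_⟩
    rw [hgev] at h
    rw [mul_assoc]
    exact h) 1 0 one_pos (by
      rw [Nat.cast_one]
      exact Real.one_le_rpow (by linarith) hδ.le) (fun p hp hp1 => absurd hp1 (by
        intro h
        exact hp.one_lt.ne' (Nat.dvd_one.1 h))) Z hZ1 hZ2
  have hprod : ∏ p ∈ (Icc 1 x).filter Nat.Prime, (1 - (omega A' B C F G N p : ℝ) / p) =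
      ∏ p ∈ Pool.Agent.TH423.SH.PS 1 x, (1 - (Pool.Agent.Y677.RSZ.rt
        (fun n => Pool.Agent.H543.DP.fv A' B C n * g.eval n) p : ℝ) / p) := by
    have e1 : Pool.Agent.TH423.SH.PS 1 x = (Icc 1 x).filter Nat.Prime := by
      unfold Pool.Agent.TH423.SH.PS
      apply filter_congr
      intro p _
      constructor
      · exact fun h => h.1
      · exact fun h => ⟨h, fun h1 => h.one_lt.ne' (Nat.dvd_one.1 h1)⟩
    rw [e1]
    refine prod_congr rfl fun p _ => ?_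
    have e2 : omega A' B C F G N p = Pool.Agent.Y677.RSZ.rt
        (fun n => Pool.Agent.H543.DP.fv A' B C n * g.eval n) p := by
      unfold omega Pool.Agent.Y677.RSZ.rt
      congr 1
      apply filter_congr
      intro n _
      have e3 : Pool.Agent.H543.DP.fv A' B C (n : ℤ) * g.eval (n : ℤ) =
          val A' B C n * (∏ i, (F i).eval (n : ℤ)) * (N - G.eval (n : ℤ)) := by
        rw [hgev, mul_assoc]
        rfl
      show _ ↔ (p : ℤ) ∣ Pool.Agent.H543.DP.fv A' B C (n : ℤ) * g.eval (n : ℤ)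
      rw [e3]
    rw [e2]
  rw [hprod]
  rw [Nat.cast_one, div_one] at hnum
  refine hnum.trans ?_
  unfold number
  have hsub : ((Ioc x (x + Z)).filter (fun n : ℕ => n % 1 = 0 % 1 ∧ Pool.Agent.H543.MQ.U.Gf A' B C
      (fun n => g.eval n) x δ n)).card ≤
      ((Ioc x (x + Z)).filter (fun n : ℕ => ∀ h ∈ ({0} : Finset ℕ),
        Rep A' B C F G r N (n + h))).card := by
    apply card_le_card
    intro n hn
    rw [mem_filter, mem_Ioc] at hn ⊢
    refine ⟨hn.1, fun h hh => ?_⟩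
    rw [mem_singleton] at hh
    subst hh
    obtain ⟨g1, g2, g3⟩ := hn.2.2
    rw [add_zero]
    obtain ⟨w, hw⟩ : ∃ w : ℕ, w = n := ⟨_, rfl⟩
    rw [← hw] at g1 g2 g3 ⊢
    have hw1 : x ≤ w := by omega
    have hw2 : w ≤ 2 * x := by omega
    obtain ⟨p1, p2, p3⟩ := hy₀ w (by omega)
    have hG2 := hy w hw2
    refine ⟨p3, g1, fun i => ⟨p1 i, ?_⟩, hG2, ?_⟩
    · have hv : ((F i).eval (w : ℤ)).natAbs ≠ 0 := by
        have := p1 i
        omega
      apply Pool.Agent.H543.MQ.U.om_r _ x δ (2 * DM + 1) r hv (by omega) hδ ?_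
        ((le_max_left _ _).trans hr)
      · intro p hp hpd
        apply g3 p hp
        show (p : ℤ) ∣ g.eval (w : ℤ)
        rw [hgev]
        exact Dvd.dvd.mul_right (dvd_trans (Int.natCast_dvd.2 hpd)
          (dvd_prod_of_mem (fun i => (F i).eval (w : ℤ)) (mem_univ i))) _
      · have e1 := hKD i (w : ℤ)
        have e2 : ((((F i).eval (w : ℤ)).natAbs : ℕ) : ℝ) = |(((F i).eval (w : ℤ) : ℤ) : ℝ)| := by
          rw [← Int.cast_abs, Int.abs_eq_natAbs]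
          simp
        rw [e2]
        refine e1.trans ?_
        have e3 : 1 + |(((w : ℕ) : ℤ) : ℝ)| ≤ (x : ℝ) ^ 2 := by
          rw [abs_of_nonneg (by positivity)]
          have : (w : ℝ) ≤ 2 * x := by exact_mod_cast hw2
          push_cast
          nlinarith
        have e4 : (Kf i : ℝ) ≤ x := by
          have : Kf i ≤ x := (hKM i).trans (by omega)
          exact_mod_cast this
        calc (Kf i : ℝ) * (1 + |(((w : ℕ) : ℤ) : ℝ)|) ^ Df i ≤ x * ((x : ℝ) ^ 2) ^ DM := by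
              apply mul_le_mul e4 _ (by positivity) hx0.le
              calc (1 + |(((w : ℕ) : ℤ) : ℝ)|) ^ Df i ≤ ((x : ℝ) ^ 2) ^ Df i :=
                    pow_le_pow_left₀ (by positivity) e3 _
                _ ≤ _ := pow_le_pow_right₀ (by nlinarith) (hDM i)
          _ = (x : ℝ) ^ ((2 * DM + 1 : ℕ) : ℝ) := by
              rw [Real.rpow_natCast]
              ring
          _ = _ := by
              congr 1
              push_cast
              ring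
    · have hv : ((N : ℤ) - G.eval (w : ℤ)).natAbs ≠ 0 := by omega
      apply Pool.Agent.H543.MQ.U.om_r _ x δ (1 / θ) r hv (by omega) hδ ?_
        ((le_max_right _ _).trans hr)
      · intro p hp hpd
        apply g3 p hp
        show (p : ℤ) ∣ g.eval (w : ℤ)
        rw [hgev]
        exact Dvd.dvd.mul_left (Int.natCast_dvd.2 hpd) _
      · have e1 : ((N : ℤ) - G.eval (w : ℤ)).natAbs ≤ N := by omega
        have e2 : ((((N : ℤ) - G.eval (w : ℤ)).natAbs : ℕ) : ℝ) ≤ N := by exact_mod_cast e1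
        refine e2.trans ?_
        have hN0 : (0 : ℝ) ≤ N := Nat.cast_nonneg N
        calc (N : ℝ) = ((N : ℝ) ^ θ) ^ (1 / θ) := by
              rw [← Real.rpow_mul hN0, mul_one_div_cancel hθ.ne', Real.rpow_one]
          _ ≤ _ := Real.rpow_le_rpow (by positivity) hx (by positivity)
  exact_mod_cast hsub

open Classical in
/-- **Schinzel's problem with almost primes, for every large admissible `N`.** -/
theorem result (A B C : ℤ) (hA : 0 < A) (hD : ¬ IsSquare (B ^ 2 - 4 * A * C)) {k : ℕ}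
    (F : Fin k → ℤ[X]) (hF : ∀ i, 0 < (F i).leadingCoeff) (G : ℤ[X]) (hG : 0 < G.leadingCoeff)
    (hG1 : 1 ≤ G.natDegree) :
    -- the number of the representations: the conjectured order of magnitude
    (∃ (r : ℕ) (c : ℝ), 0 < c ∧ ∀ᶠ N : ℕ in atTop, Admissible A B C F G N →
      c * (X' G N / Real.log (X' G N) ^ (k + 2) * partialS A B C F G N (X' G N)) ≤
        Q A B C F G r N) ∧
    -- clusters of representations in short intervals at all scales `x ≥ N ^ θ`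
    ∃ δ₀ : ℝ, 0 < δ₀ ∧ ∀ (θ : ℝ), 0 < θ → ∀ m : ℕ, ∃ (K D r : ℕ) (δ : ℝ), 0 < δ ∧
      ∀ᶠ N : ℕ in atTop, Admissible A B C F G N →
        ∀ x : ℕ, (N : ℝ) ^ θ ≤ x → (∀ y : ℕ, y ≤ 2 * x → G.eval (y : ℤ) < N) →
        ∀ S : Finset ℕ, K ≤ S.card → (∀ h ∈ S, (h : ℝ) ≤ (x : ℝ) ^ δ) →
        ∀ Z : ℕ, (x : ℝ) ^ (1 - δ₀) ≤ Z → 2 * Z ≤ x → ∃ H ⊆ S, H.card = m ∧
          Z / Real.log x ^ D ≤ number A B C F G r N H x Z := by
  obtain ⟨δ₀, hδ₀, hδ₀1, hcl⟩ := clusters A B C hA hD F hF G hG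
  refine ⟨?_, δ₀, hδ₀, hcl⟩
  obtain ⟨δ₁, hδ₁, hδ₁1, hsg⟩ := single A B C hA hD F hF G hG
  obtain ⟨h₀, hh₀⟩ : ∃ h₀ : ℕ, h₀ = G.natDegree := ⟨_, rfl⟩
  rw [← hh₀] at hG1
  have hh0r : (1 : ℝ) ≤ h₀ := by exact_mod_cast hG1
  obtain ⟨a, ha⟩ : ∃ a : ℕ, (a : ℤ) = G.leadingCoeff + 1 := ⟨(G.leadingCoeff + 1).toNat, by omega⟩
  have ha2 : 2 ≤ a := by omega
  have har : (2 : ℝ) ≤ a := by exact_mod_cast ha2
  obtain ⟨r, c, hc, hN⟩ := hsg (1 / (2 * h₀)) (by positivity)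
  obtain ⟨K, hK0⟩ : ∃ K : ℕ, K = 0 := ⟨0, rfl⟩
  obtain ⟨CM, hCM⟩ : ∃ CM : ℝ, CM = Real.exp Real.eulerMascheroniConstant + 1 := ⟨_, rfl⟩
  have hCM0 : 0 < CM := by rw [hCM]; positivity
  obtain ⟨n₁, hn₁⟩ := eventually_atTop.1
    (Pool.Agent.H305R2.mertens_three.eventually_le_const (show
      Real.exp Real.eulerMascheroniConstant < CM by rw [hCM]; linarith))
  refine ⟨r, c / (4 * (8 * a + 1) * CM ^ (k + 2)), by positivity, ?_⟩
  obtain ⟨y₁, hy₁⟩ := eventually_atTop.1 ((Pool.Agent.H543.MQ.U.low_ev G hG).and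
    (Pool.Agent.H543.MQ.U.up_ev G hG))
  obtain ⟨y₀, hny, hy₀⟩ : ∃ y₀ : ℕ, n₁ ≤ y₀ ∧ ∀ y : ℕ, y₀ ≤ y →
      (y : ℤ) ^ G.natDegree < 2 * G.eval (y : ℤ) ∧
        G.eval (y : ℤ) < (G.leadingCoeff + 1) * (y : ℤ) ^ G.natDegree :=
    ⟨max n₁ y₁, le_max_left _ _, fun y hy => hy₁ y ((le_max_right _ _).trans hy)⟩
  -- the small arguments
  obtain ⟨M0, hM0⟩ : ∃ M0 : ℕ, ∀ y < y₀, G.eval (y : ℤ) < M0 := by
    refine ⟨(range y₀).sup (fun y => (G.eval (y : ℤ)).natAbs) + 1, fun y hy => ?_⟩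
    have h1 : (G.eval (y : ℤ)).natAbs ≤ (range y₀).sup (fun y => (G.eval (y : ℤ)).natAbs) :=
      Finset.le_sup (f := fun y : ℕ => (G.eval (y : ℤ)).natAbs) (mem_range.2 hy)
    omega
  have hT := tendsto_natCast_atTop_atTop (R := ℝ)
  have hi0 : (0 : ℝ) < 1 / h₀ := by positivity
  -- conditions for large `N`
  have v1 : ∀ᶠ N : ℕ in atTop, (2 * a * (K + y₀ + 9) + 10 : ℝ) ≤ (N : ℝ) ^ (1 / (2 * h₀ : ℝ)) :=
    ((tendsto_rpow_atTop (by positivity)).comp hT).eventually_ge_atTop _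
  obtain ⟨x₁, hx₁⟩ := eventually_atTop.1
    (((tendsto_rpow_atTop hδ₁).comp hT).eventually_ge_atTop (4 : ℝ))
  have v3 : ∀ᶠ N : ℕ in atTop, (x₁ : ℝ) ≤ (N : ℝ) ^ (1 / (2 * h₀ : ℝ)) :=
    ((tendsto_rpow_atTop (by positivity)).comp hT).eventually_ge_atTop _
  filter_upwards [hN, v1, v3, eventually_ge_atTop (M0 + 1)] with N hN w1 w3 w4 hadm
  have hN1 : (1 : ℝ) ≤ N := by exact_mod_cast (by omega : 1 ≤ N)
  have hN0 : (0 : ℝ) < N := by linarith
  have ha0 : (0 : ℝ) < a := by linarith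
  -- the root
  obtain ⟨R, hR⟩ : ∃ R : ℝ, R = ((N : ℝ) / a) ^ (1 / (h₀ : ℝ)) := ⟨_, rfl⟩
  have hR0 : 0 < R := by rw [hR]; positivity
  have hRpow : R ^ h₀ = N / a := by
    rw [hR, ← Real.rpow_natCast, ← Real.rpow_mul (by positivity), one_div_mul_cancel (by positivity),
      Real.rpow_one]
  obtain ⟨T0, hT0⟩ : ∃ T0 : ℝ, T0 = (N : ℝ) ^ (1 / (2 * h₀ : ℝ)) := ⟨_, rfl⟩
  rw [← hT0] at w1 w3
  have hT01 : 1 ≤ T0 := by
    have : (0 : ℝ) ≤ 2 * a * (K + y₀ + 9) := by positivity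
    linarith
  have hTT : T0 * T0 = (N : ℝ) ^ (1 / (h₀ : ℝ)) := by
    rw [hT0, ← Real.rpow_add hN0]
    congr 1
    field_simp
    norm_num
  have hRa : T0 * T0 ≤ R * a := by
    have e1 : (N : ℝ) ^ (1 / (h₀ : ℝ)) = R * (a : ℝ) ^ (1 / (h₀ : ℝ)) := by
      rw [hR, ← Real.mul_rpow (by positivity) ha0.le, div_mul_cancel₀ _ ha0.ne']
    rw [hTT, e1]
    apply mul_le_mul_of_nonneg_left _ hR0.le
    calc (a : ℝ) ^ (1 / (h₀ : ℝ)) ≤ (a : ℝ) ^ (1 : ℝ) := by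
          apply Real.rpow_le_rpow_of_exponent_le (by linarith)
          rw [div_le_one (by positivity)]
          exact hh0r
      _ = a := Real.rpow_one _
  -- the place `x`
  obtain ⟨x, hx⟩ : ∃ x : ℕ, x = ⌊R / 2⌋₊ := ⟨_, rfl⟩
  have hx2 : (x : ℝ) ≤ R / 2 := by rw [hx]; exact Nat.floor_le (by positivity)
  have hx3 : R / 2 < x + 1 := by rw [hx]; exact Nat.lt_floor_add_one _
  have hRbig : 2 * T0 + 2 ≤ R := by
    have e1 : (2 * a * (K + y₀ + 9) + 10) * T0 ≤ R * a :=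
      (mul_le_mul_of_nonneg_right w1 (by linarith)).trans hRa
    have e2 : (0 : ℝ) ≤ K := Nat.cast_nonneg _
    have e3 : (0 : ℝ) ≤ y₀ := Nat.cast_nonneg _
    have e4 : (4 * T0) * a ≤ R * a := by
      refine le_trans ?_ e1
      have : (4 : ℝ) * a ≤ 2 * a * (K + y₀ + 9) + 10 := by
        have e5 : (0 : ℝ) ≤ a * K := by positivity
        have e6 : (0 : ℝ) ≤ a * y₀ := by positivity
        nlinarith
      calc (4 * T0) * a = (4 * a) * T0 := by ring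
        _ ≤ _ := mul_le_mul_of_nonneg_right this (by linarith)
    have e5 := le_of_mul_le_mul_right e4 ha0
    linarith
  have hxT : T0 ≤ x := by linarith
  have hxN : (N : ℝ) ^ (1 / (2 * h₀ : ℝ)) ≤ x := by rw [← hT0]; exact hxT
  have hxbig : (K + y₀ + 9 : ℝ) ≤ x := by
    have e2 : (0 : ℝ) ≤ K := Nat.cast_nonneg _
    have e3 : (0 : ℝ) ≤ y₀ := Nat.cast_nonneg _
    nlinarith
  have hxb : K + y₀ + 9 ≤ x := by exact_mod_cast hxbig
  have hx0 : (0 : ℝ) < x := by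
    have e2 : (0 : ℝ) ≤ K := Nat.cast_nonneg _
    have e3 : (0 : ℝ) ≤ y₀ := Nat.cast_nonneg _
    linarith
  -- `G < N` on `[0, 2 x]`
  have hGN : ∀ y : ℕ, y ≤ 2 * x → G.eval (y : ℤ) < N := by
    intro y hy
    by_cases hyy : y < y₀
    · have := hM0 y hyy
      omega
    · have h1 := (hy₀ y (not_lt.1 hyy)).2
      rw [← ha, ← hh₀] at h1
      have h2 : ((a : ℤ) * (y : ℤ) ^ h₀ : ℤ) ≤ N := by
        have h3 : (y : ℝ) ≤ R := by
          have : (y : ℝ) ≤ 2 * x := by exact_mod_cast hy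
          linarith
        have h4 : (y : ℝ) ^ h₀ ≤ N / a := by
          rw [← hRpow]
          exact pow_le_pow_left₀ (Nat.cast_nonneg _) h3 _
        rw [le_div_iff₀ ha0] at h4
        have h5 : ((a * y ^ h₀ : ℕ) : ℝ) ≤ (N : ℕ) := by
          push_cast
          linarith
        have h6 : a * y ^ h₀ ≤ N := by exact_mod_cast h5
        exact_mod_cast h6
      linarith
  have hx₁2 := hx₁ x (by
    have : (x₁ : ℝ) ≤ x := w3.trans hxT
    exact_mod_cast this)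
  simp only [Function.comp_apply] at hx₁2
  -- the interval
  have hnum := hN hadm x hxN hGN (x / 2) (by
      have h1 : (x : ℝ) ≤ 2 * ((x / 2 : ℕ) : ℝ) + 1 := by
        have : x ≤ 2 * (x / 2) + 1 := by omega
        exact_mod_cast this
      have h2 : (x : ℝ) ^ (1 - δ₁) * 4 ≤ x := by
        have h3 : (x : ℝ) = (x : ℝ) ^ (1 - δ₁) * (x : ℝ) ^ δ₁ := by
          rw [← Real.rpow_add hx0]
          norm_num
        conv_rhs => rw [h3]
        exact mul_le_mul_of_nonneg_left hx₁2 (by positivity)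
      have h3 : (1 : ℝ) ≤ (x : ℝ) ^ (1 - δ₁) := Real.one_le_rpow (by
        have : (1 : ℕ) ≤ x := by omega
        exact_mod_cast this) (by linarith)
      linarith) (by omega)
  obtain ⟨h, hh0⟩ : ∃ h : ℕ, h = 0 := ⟨0, rfl⟩
  rw [← hh0] at hnum
  -- the finite set of all arguments
  have hfin : {n : ℕ | 1 ≤ n ∧ G.eval (n : ℤ) < N} ⊆ ((Icc 1 (⌊2 * a * R⌋₊ + y₀) : Finset ℕ) : Set ℕ) := by
    rintro n ⟨hn1, hn2⟩
    rw [coe_Icc, Set.mem_Icc]
    refine ⟨hn1, ?_⟩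
    by_cases hny : n < y₀
    · omega
    · have h1 := (hy₀ n (not_lt.1 hny)).1
      rw [← hh₀] at h1
      have h2 : ((n : ℤ)) ^ h₀ ≤ 2 * N := by linarith
      have h3 : ((n : ℝ)) ^ h₀ ≤ 2 * N := by
        have : ((n ^ h₀ : ℕ) : ℤ) ≤ ((2 * N : ℕ) : ℤ) := by push_cast; exact h2
        have h4 : n ^ h₀ ≤ 2 * N := by exact_mod_cast this
        exact_mod_cast h4
      have h4 : (n : ℝ) ^ h₀ ≤ (2 * a * R) ^ h₀ := by
        refine h3.trans ?_
        rw [mul_pow, hRpow]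
        have h5 : (2 * (a : ℝ)) ^ 1 ≤ (2 * (a : ℝ)) ^ h₀ := pow_le_pow_right₀ (by linarith) hG1
        rw [pow_one] at h5
        calc (2 : ℝ) * N = (2 * a) * (N / a) := by field_simp
          _ ≤ _ := mul_le_mul_of_nonneg_right h5 (by positivity)
      have h5 : (n : ℝ) ≤ 2 * a * R := le_of_pow_le_pow_left₀ (by omega) (by positivity) h4
      have h6 := Nat.le_floor h5
      omega
  have hX : (X' G N : ℝ) ≤ 2 * a * R + y₀ := by
    unfold X'
    have h1 := Set.ncard_le_ncard hfin (Finset.finite_toSet _)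
    rw [Set.ncard_coe_finset, Nat.card_Icc, Nat.add_sub_cancel] at h1
    have h2 : (⌊2 * a * R⌋₊ : ℝ) ≤ 2 * a * R := Nat.floor_le (by positivity)
    have h3 : (Set.ncard {n : ℕ | 1 ≤ n ∧ G.eval (n : ℤ) < N} : ℝ) ≤ ((⌊2 * a * R⌋₊ + y₀ : ℕ) : ℝ) := by
      exact_mod_cast h1
    push_cast at h3
    linarith
  -- the representations
  have hQ : ((number A B C F G r N {h} x (x / 2) : ℕ) : ℝ) ≤ Q A B C F G r N := by
    unfold number Q
    have h1 : (((Ioc x (x + x / 2)).filter (fun n : ℕ => ∀ h' ∈ ({h} : Finset ℕ),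
        Rep A B C F G r N (n + h'))).image (fun n => n + h) : Finset ℕ).card ≤
        Set.ncard {n : ℕ | 1 ≤ n ∧ Rep A B C F G r N n} := by
      rw [← Set.ncard_coe_finset]
      apply Set.ncard_le_ncard
      · intro n hn
        rw [mem_coe, mem_image] at hn
        obtain ⟨n', hn', rfl⟩ := hn
        rw [mem_filter, mem_Ioc] at hn'
        exact ⟨by omega, hn'.2 h (mem_singleton_self h)⟩
      · apply (Finset.finite_toSet (Icc 1 (⌊2 * a * R⌋₊ + y₀))).subset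
        rintro n ⟨hn1, hn2⟩
        exact hfin ⟨hn1, hn2.2.2.2.1⟩
    rw [card_image_of_injective _ (add_left_injective h)] at h1
    exact_mod_cast h1
  refine le_trans ?_ (hnum.trans hQ)
  -- comparison
  have hXx : (X' G N : ℝ) ≤ (8 * a + 1) * x := by
    have h1 : R ≤ 4 * x := by
      have : (9 : ℝ) ≤ x := by
        have e2 : (0 : ℝ) ≤ K := Nat.cast_nonneg _
        have e3 : (0 : ℝ) ≤ y₀ := Nat.cast_nonneg _
        linarith
      linarith
    have h2 : (y₀ : ℝ) ≤ x := by exact_mod_cast (by omega : y₀ ≤ x)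
    nlinarith
  have hxZ : (x : ℝ) ≤ 4 * ((x / 2 : ℕ) : ℝ) := by
    have : x ≤ 4 * (x / 2) := by omega
    exact_mod_cast this
  have hxX : x ≤ X' G N := by
    unfold X'
    have h1 : ((Icc 1 x : Finset ℕ) : Set ℕ) ⊆ {n : ℕ | 1 ≤ n ∧ G.eval (n : ℤ) < N} := by
      intro n hn
      rw [mem_coe, mem_Icc] at hn
      exact ⟨hn.1, hGN n (by omega)⟩
    have h2 := Set.ncard_le_ncard h1 ((Finset.finite_toSet _).subset hfin)
    rw [Set.ncard_coe_finset, Nat.card_Icc, Nat.add_sub_cancel] at h2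
    exact h2
  obtain ⟨XX, hXX⟩ : ∃ XX : ℕ, XX = X' G N := ⟨_, rfl⟩
  rw [← hXX] at hXx hxX ⊢
  have hXXr : (9 : ℝ) ≤ XX := by exact_mod_cast (by omega : 9 ≤ XX)
  have hlX : 0 < Real.log XX := Real.log_pos (by linarith)
  have hmer := hn₁ XX (by omega)
  rw [div_le_iff₀ hlX] at hmer
  have hom : ∀ p : ℕ, p.Prime → 0 ≤ 1 - (omega A B C F G N p : ℝ) / p ∧
      1 - (omega A B C F G N p : ℝ) / p ≤ 1 := by
    intro p hp
    have hp0 : (0 : ℝ) < p := by exact_mod_cast hp.pos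
    have h1 : omega A B C F G N p ≤ p := by
      unfold omega
      exact (card_filter_le _ _).trans (le_of_eq (card_range p))
    have h2 : (omega A B C F G N p : ℝ) / p ≤ 1 := by
      rw [div_le_one hp0]
      exact_mod_cast h1
    have h3 : 0 ≤ (omega A B C F G N p : ℝ) / p := by positivity
    constructor <;> linarith
  obtain ⟨T, hTdef⟩ : ∃ T : ℝ, T = ∏ p ∈ (Icc 1 XX).filter Nat.Prime,
    (1 - (omega A B C F G N p : ℝ) / p) := ⟨_, rfl⟩
  obtain ⟨Tx, hTx⟩ : ∃ Tx : ℝ, Tx = ∏ p ∈ (Icc 1 x).filter Nat.Prime,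
    (1 - (omega A B C F G N p : ℝ) / p) := ⟨_, rfl⟩
  rw [← hTx]
  have hT0 : 0 ≤ T := by
    rw [hTdef]
    exact prod_nonneg fun p hp => (hom p (mem_filter.1 hp).2).1
  have hTT' : T ≤ Tx := by
    have hsub : (Icc 1 x).filter Nat.Prime ⊆ (Icc 1 XX).filter Nat.Prime := by
      apply filter_subset_filter
      exact Icc_subset_Icc_right hxX
    rw [hTdef, hTx, ← prod_sdiff hsub]
    refine (mul_le_mul_of_nonneg_right ?_ (prod_nonneg fun p hp =>
      (hom p (mem_filter.1 hp).2).1)).trans (le_of_eq (one_mul _))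
    apply prod_le_one
    · intro p hp
      exact (hom p (mem_filter.1 (mem_sdiff.1 hp).1).2).1
    · intro p hp
      exact (hom p (mem_filter.1 (mem_sdiff.1 hp).1).2).2
  have hS : partialS A B C F G N XX = T * (∏ p ∈ (Icc 1 XX).filter Nat.Prime,
      (1 - (p : ℝ)⁻¹)⁻¹) ^ (k + 2) := by
    unfold partialS
    rw [prod_mul_distrib, ← hTdef, ← prod_pow]
    congr 1
    refine prod_congr rfl fun p _ => ?_
    rw [one_div, inv_pow]
  obtain ⟨Pm, hPm⟩ : ∃ Pm : ℝ, Pm = ∏ p ∈ (Icc 1 XX).filter Nat.Prime,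
      (1 - (p : ℝ)⁻¹)⁻¹ := ⟨_, rfl⟩
  rw [← hPm] at hS hmer
  have hPm0 : 0 ≤ Pm := by
    rw [hPm]
    apply prod_nonneg
    intro p hp
    have hp1 : (1 : ℝ) ≤ p := by exact_mod_cast (mem_filter.1 hp).2.one_lt.le
    have : (p : ℝ)⁻¹ ≤ 1 := inv_le_one_of_one_le₀ hp1
    exact inv_nonneg.2 (by linarith)
  rw [hS]
  have hpow : Pm ^ (k + 2) ≤ CM ^ (k + 2) * Real.log XX ^ (k + 2) := by
    rw [← mul_pow]
    exact pow_le_pow_left₀ hPm0 hmer _
  have hZ0 : (0 : ℝ) ≤ ((x / 2 : ℕ) : ℝ) := Nat.cast_nonneg _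
  have hx00 : (0 : ℝ) ≤ x := Nat.cast_nonneg _
  have hfirst : (XX : ℝ) / Real.log XX ^ (k + 2) * (T * Pm ^ (k + 2)) ≤
      (4 * (8 * a + 1) * CM ^ (k + 2)) * (((x / 2 : ℕ) : ℝ) * Tx) := by
    rw [div_mul_eq_mul_div, div_le_iff₀ (by positivity)]
    calc (XX : ℝ) * (T * Pm ^ (k + 2)) ≤
          ((8 * a + 1) * (4 * ((x / 2 : ℕ) : ℝ))) *
            (Tx * (CM ^ (k + 2) * Real.log XX ^ (k + 2))) := by
          apply mul_le_mul _ _ (by positivity) (by positivity)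
          · exact hXx.trans (mul_le_mul_of_nonneg_left hxZ (by positivity))
          · exact mul_le_mul hTT' hpow (by positivity) (hT0.trans hTT')
      _ = _ := by ring
  calc c / (4 * (8 * a + 1) * CM ^ (k + 2)) *
        ((XX : ℝ) / Real.log XX ^ (k + 2) * (T * Pm ^ (k + 2))) ≤
        c / (4 * (8 * a + 1) * CM ^ (k + 2)) *
          ((4 * (8 * a + 1) * CM ^ (k + 2)) * (((x / 2 : ℕ) : ℝ) * Tx)) :=
          mul_le_mul_of_nonneg_left hfirst (by positivity)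
    _ = c * (((x / 2 : ℕ) : ℝ) * Tx) := by
        have : (4 * (8 * a + 1) * CM ^ (k + 2) : ℝ) ≠ 0 := by positivity
        field_simp

end Pool.Agent.Results.MP_0bf1d2_nt.AlmostPrimesForEveryN
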