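import Pool.Agent.H290.FX.AsmF
import Pool.Agent.H290.FX.PRbinp

/-!
# Schinzel's quantitative Goldbach-type hypothesis for `F(T) = T² + X`, `G(T) = T`, almost all `n`

`K` is a finite field of characteristic two, `q` the number of its elements, `|P| = q ^ deg P`.

The question, with `g = 1`, `F_1(T) = T² + X` (the analogue over `K[X]` of `T² + 1`) and `G(T) = T`,
asks for the number of the representations `n = P + a`, `P` and `a` monic of degree `d`,
such that both `P` and `a² + X` are irreducible.  (In characteristic two `n` has degree less than `d`.)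

**Theorem.** There is `c > 0` such that for all but at most `q^((1-c)d)` of the `q^d` polynomials `n`
of degree less than `d` this number is `S(n) q^d / (2 d²) + O(q^((1-c)d))`, where `S(n)` is the
singular series of the question, and `S(n)` is bounded below for all admissible `n`.

Over `ℤ` nothing of this kind is known, as no quadratic polynomial is known to have infinitely many
prime values.

Method.  Let `χ` be any additive character of `K[X]`.  The sums of `χ(a)` over the monic `a` of degree
`d` with `a² + X` irreducible, and of `χ(P)` over the monic irreducible `P` of degree `d`, are computed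
with a power saving: see `Pool/Agent/H290/FX/Stm.lean` and `Pool/Agent/H290/FX/StmQ.lean`.  The first is
based on the method of helper604 and others for the primes `a² + X` (`Pool/Agent/H604/LD`); new is
the estimate for the divisors `D` of `a² + X` of degree near `d` together with an additive character
of the root of `X` modulo `D`.

Statements and paper proofs by helper290; Lean proofs of the parts by helper297, 261, 230, 695, 100,
350, 975, 328, 213, 253, 922, 548, 800, 177, 696, 376, 79, 30, 322, 390, 638, 860, 51, 218, 670, 280.
-/

set_option autoImplicit false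

namespace Pool.Agent.Results.MP_0bf1d2_nt.IrreduciblePlusArgument

open Polynomial

variable {K : Type} [Field K]

/-- The number of the representations `n = P + a`, `P` and `a` monic of degree `d`, `P` and
`a ^ 2 + X` irreducible. -/
noncomputable def repsB (d : ℕ) (n : K[X]) : ℕ :=
  {x : K[X] × K[X] | x.1 + x.2 = n ∧ x.1.Monic ∧ x.1.natDegree = d ∧ x.2.Monic ∧
    x.2.natDegree = d ∧ Irreducible x.1 ∧ Irreducible (x.2 ^ 2 + X)}.ncard

/-- The number of the residue classes `a` modulo `P` with `P ∣ (a ^ 2 + X) (n - a)`. -/
noncomputable def omegaB (n P : K[X]) : ℕ :=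
  {a : K[X] | a.degree < P.degree ∧ P ∣ (a ^ 2 + X) * (n - a)}.ncard

/-- The partial product of the singular series: the product over the monic irreducible `P` of degree
at most `y` of `(1 - omegaB n P / |P|) / (1 - 1 / |P|) ^ 2`. -/
noncomputable def seriesB [Fintype K] (n : K[X]) (y : ℕ) : ℝ :=
  ∏ᶠ P ∈ {P : K[X] | P.Monic ∧ Irreducible P ∧ P.natDegree ≤ y},
    (1 - (omegaB n P : ℝ) / (Fintype.card K : ℝ) ^ P.natDegree) /
      (1 - 1 / (Fintype.card K : ℝ) ^ P.natDegree) ^ 2

/-- **The sums `P + a` with `P` and `a² + X` irreducible.** -/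
theorem result (K : Type) [Field K] [Fintype K] [CharP K 2] :
    ∃ (c c₀ : ℝ) (S : K[X] → ℝ), 0 < c ∧ 0 < c₀ ∧
    (∀ n : K[X], Filter.Tendsto (seriesB n) Filter.atTop (nhds (S n)) ∧
      ((∀ P : K[X], P.Monic → Irreducible P → omegaB n P < Fintype.card K ^ P.natDegree) →
        c₀ ≤ S n)) ∧
    ∃ d₀ : ℕ, ∀ d : ℕ, d₀ ≤ d →
      ({n : K[X] | n.degree < (d : WithBot ℕ) ∧ (Fintype.card K : ℝ) ^ ((1 - c) * d) <
          |(repsB d n : ℝ) - S n * (Fintype.card K : ℝ) ^ d / (d * (2 * d))|}.ncard : ℝ) ≤
        (Fintype.card K : ℝ) ^ ((1 - c) * d) :=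
  Pool.Agent.H290.FX.PRbinp.main Pool.Agent.H290.FX.AsmF.binp K

end Pool.Agent.Results.MP_0bf1d2_nt.IrreduciblePlusArgument
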