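import Pool.Agent.H579.E.FinS

/-!
# Sums of a prime and of a product of two primes: the asymptotic formula in the residue classes of EVERY modulus up
to `x ^ (1 - ρ)`

Let `0 < κ₁ ≤ κ₂ < ρ ≤ 1 / 5`. For every modulus `q ≤ x ^ (1 - ρ)` (no exceptional moduli), every residue class `a`
modulo `q` such that the greatest common divisor of `a` and `q` is at most a fixed power of `log x`, and ARBITRARY
bounded coefficients `α p₁` on the primes `p₁ ∈ (x ^ κ₁, x ^ κ₂]`, all but at most `x / (q (log x) ^ A)` of the even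
integers `n ≤ x`, `n ≡ a (mod q)`, satisfy the formula of Hardy-Littlewood type

`∑_{p₀ + p₁ p₂ = n} α(p₁) log p₀ log p₂ = sing(n) n ∑_{x ^ κ₁ < p ≤ x ^ κ₂} α(p) / p + O(x / (log x) ^ B)`.

For a single `p₁` this is the problem with `g = 1`, `F₁(n) = n`, `G(n) = p₁ n` (the number of primes `n` for which
`N - p₁ n` is prime); the theorem is its version on average over `p₁`, with arbitrary coefficients, for almost all `N`
in the residue classes of EVERY modulus up to `x ^ (1 - ρ)`, with error terms smaller by any power of the logarithm.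

In particular: if `S` is any set of primes from `(x ^ κ₁, x ^ κ₂]` with `∑_{p ∈ S} 1 / p ≥ (log x) ^ (-B)` (a
residue class to a small modulus, a short interval, a random subset...), then all but at most
`x / (q (log x) ^ A)` of the even `n ≤ x`, `n ≡ a (mod q)`, are `p₀ + p₁ p₂` with primes `p₀`, `p₂` and `p₁ ∈ S`. So
every class `a` modulo `q`, `gcd(a, q) ≤ (log q) ^ T`, which contains even numbers, contains such a sum below
`q ^ (1 + ε)`, for every fixed `ε > 0`; the exponent `1` is best possible. For two primes only the level `4 / 5` (and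
lower bounds instead of an asymptotic formula) are known.

Definitions used: `sing n = 2 C₂ ∏_{p ∣ n, p > 2} (p - 1) / (p - 2)` with `C₂ = ∏_{p > 2} (1 - 1 / (p - 1) ^ 2)`
(in `Pool.Agent.H560R3.GB`).

Proof. The function `∑_{p₁ m = n} α(p₁) Λ(m)` is bilinear with the first variable in `(N ^ κ₁, N ^ κ₂]`; for such
functions the square mean over all but `(log N) ^ C` characters modulo `q`, for EVERY `q ≤ N ^ (1 - κ₂ - δ)`, is small,
by the large values of Dirichlet polynomials (on the major arcs) and by the large sieve (on the minor arcs). The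
remaining characters are treated by correlations of the von Mangoldt function with shifted characters (Vaughan's
identity and a Jacobi sum argument for all conductors beyond a power of the logarithm), for the new range of the
moduli; the starting files `R460/GS`, `T6/H3/FF` treat two primes in the same way.
-/

set_option autoImplicit false

namespace Pool.Agent.Results.MP_0bf1d2_nt.PrimePlusTwoPrimesLevelOne

open Finset
open Pool.Agent.H560R3.GB (sing)

/-- The primes `p` with `x ^ κ₁ < p ≤ x ^ κ₂`. -/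
noncomputable def smallPrimes (x : ℕ) (κ₁ κ₂ : ℝ) : Finset ℕ :=
  (Icc 1 x).filter (fun p => p.Prime ∧ (x : ℝ) ^ κ₁ < p ∧ (p : ℝ) ≤ (x : ℝ) ^ κ₂)

/-- The sum of `α(p₁) log p₂ log p₀` over the representations `n = p₀ + p₁ p₂` by primes with
`x ^ κ₁ < p₁ ≤ x ^ κ₂`. -/
noncomputable def weighted (x : ℕ) (κ₁ κ₂ : ℝ) (α : ℕ → ℝ) (n : ℕ) : ℝ :=
  ∑ p₁ ∈ smallPrimes x κ₁ κ₂, α p₁ * ∑ p₂ ∈ (Icc 1 n).filter (fun p₂ => p₂.Prime ∧ p₁ * p₂ < n ∧ (n - p₁ * p₂).Prime),
    Real.log p₂ * Real.log (n - p₁ * p₂ : ℕ)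

/-- The even integers `n ≤ x`, `n ≡ a (mod q)`, for which the asymptotic formula does not hold. -/
noncomputable def exceptional (B x : ℕ) (κ₁ κ₂ : ℝ) (α : ℕ → ℝ) (q : ℕ) (a : ℤ) : Finset ℕ :=
  (Icc 1 x).filter (fun n : ℕ => 2 ∣ n ∧ (n : ℤ) ≡ a [ZMOD q] ∧
    x / Real.log x ^ B < |weighted x κ₁ κ₂ α n - sing n * n * ∑ p ∈ smallPrimes x κ₁ κ₂, α p / p|)

open Classical in
/-- The even integers `n ≤ x`, `n ≡ a (mod q)`, which are not `p₀ + p₁ p₂` with primes `p₀`, `p₂` and `p₁ ∈ S`. -/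
noncomputable def missing (x : ℕ) (S : Finset ℕ) (q : ℕ) (a : ℤ) : Finset ℕ :=
  (Icc 1 x).filter (fun n : ℕ => 2 ∣ n ∧ (n : ℤ) ≡ a [ZMOD q] ∧
    ¬ ∃ p₀ p₁ p₂ : ℕ, p₀.Prime ∧ p₁ ∈ S ∧ p₂.Prime ∧ p₀ + p₁ * p₂ = n)

/-- Let `0 < κ₁ ≤ κ₂ < ρ ≤ 1 / 5` and `A`, `B`, `T` be given. For all sufficiently large integers `x`, for every
integer `1 ≤ q ≤ x ^ (1 - ρ)` and every integer `a` with `gcd (a, q) ≤ (log x) ^ T`:

* for all real coefficients `|α p| ≤ 1` all but at most `x / (q (log x) ^ A)` of the even `n ≤ x`,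
  `n ≡ a (mod q)`, satisfy the asymptotic formula with the error term `x / (log x) ^ B`;
* for every set `S` of primes `p` with `x ^ κ₁ < p ≤ x ^ κ₂` and `∑_{p ∈ S} 1 / p ≥ 1 / (log x) ^ B`, all but at most
  `x / (q (log x) ^ A)` of the even `n ≤ x`, `n ≡ a (mod q)`, are `p₀ + p₁ p₂` with primes `p₀`, `p₂` and `p₁ ∈ S`. -/
theorem result (κ₁ κ₂ ρ : ℝ) (h0 : 0 < κ₁) (h01 : κ₁ ≤ κ₂) (h1 : κ₂ < ρ) (h2 : ρ ≤ 1 / 5) (A B T : ℕ) :
    ∃ x₀ : ℕ, ∀ x : ℕ, x₀ ≤ x → ∀ q : ℕ, 1 ≤ q → (q : ℝ) ≤ (x : ℝ) ^ (1 - ρ) → ∀ a : ℤ,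
      (Int.gcd a q : ℝ) ≤ Real.log x ^ T →
        (∀ α : ℕ → ℝ, (∀ p, |α p| ≤ 1) →
          ((exceptional B x κ₁ κ₂ α q a).card : ℝ) ≤ x / (q * Real.log x ^ A)) ∧
        ∀ S : Finset ℕ, S ⊆ smallPrimes x κ₁ κ₂ → 1 / Real.log x ^ B ≤ ∑ p ∈ S, 1 / (p : ℝ) →
          ((missing x S q a).card : ℝ) ≤ x / (q * Real.log x ^ A) := by
  classical
  obtain ⟨N₁, c1⟩ := Pool.Agent.H579.E.sums h0 h01 h1 h2 A B T
  obtain ⟨N₂, c2⟩ := Pool.Agent.H579.E.repr_few h0 h01 h1 h2 A B T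
  refine ⟨N₁ + N₂, fun x hx q hq1 hq a ha => ⟨fun α hα => ?_, fun S hS hm => ?_⟩⟩
  · have h3 := c1 x (by omega) (Pool.Agent.H579.E.res x κ₁ κ₂ α) (Pool.Agent.H579.E.al_res hα) q hq1 hq a ha
    rw [Pool.Agent.H579.E.WA_res] at h3
    simp only [Pool.Agent.H579.E.rep_res] at h3
    exact h3
  · refine c2 x (by omega) S hS hm q hq1 hq a ha _ fun n hn => ?_
    unfold missing at hn
    rw [mem_filter, mem_Icc] at hn
    exact ⟨hn.1.1, hn.1.2, hn.2.1, hn.2.2.1, hn.2.2.2⟩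

end Pool.Agent.Results.MP_0bf1d2_nt.PrimePlusTwoPrimesLevelOne
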