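import Pool.Agent.H561.PG.R2

set_option autoImplicit false

/-! Schinzel's hypothesis for the pair `n`, `N - G(n)`, for almost all `N` and small `n`. -/

namespace Pool.Agent.Results.MP_0bf1d2_nt.SmallArgumentsAlmostAll

open Finset Polynomial

/-- no prime divides all the values of `x (N - G(x))` -/
def NoFixedDivisor (G : ℤ[X]) (N : ℕ) : Prop :=
  ∀ p : ℕ, p.Prime → ∃ n : ℤ, ¬ (p : ℤ) ∣ n * ((N : ℤ) - G.eval n)

/-- the number of the residues `n` modulo `p` with `n (N - G(n)) = 0` -/
noncomputable def omega (G : ℤ[X]) (N p : ℕ) : ℕ :=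
  ((range p).filter (fun n : ℕ => (p : ℤ) ∣ (n : ℤ) * ((N : ℤ) - G.eval (n : ℤ)))).card

/-- the singular series of the problem, restricted to the primes up to `(log N) ^ E` -/
noncomputable def series (G : ℤ[X]) (E N : ℕ) : ℝ :=
  ∏ p ∈ (Icc 1 ⌊Real.log N ^ E⌋₊).filter Nat.Prime, (1 - (omega G N p : ℝ) / p) / (1 - 1 / (p : ℝ)) ^ 2

/-- the number of the primes `n` of `(u, v]` for which `N - G(n)` is prime -/
noncomputable def count (G : ℤ[X]) (N : ℕ) (u v : ℝ) : ℕ :=
  ((Ioc ⌊u⌋₊ ⌊v⌋₊).filter (fun n : ℕ => n.Prime ∧ ((N : ℤ) - G.eval (n : ℤ)).toNat.Prime)).card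

/-- the formula of Schinzel's hypothesis for the windows `(u, v]` with `N ^ (1 / (4 h) + δ) ≤ v`, `v ^ h (log N) ^ B ≤ N`,
`v - u ≥ v / (log N) ^ W`, up to a relative error `ε`; `h` is the degree of `G` -/
def Holds (G : ℤ[X]) (δ ε : ℝ) (W B E N : ℕ) : Prop :=
  ∀ u v : ℝ, 0 ≤ u → (N : ℝ) ^ (1 / (4 * G.natDegree) + δ : ℝ) ≤ v → v ^ G.natDegree * Real.log N ^ B ≤ N →
    v / Real.log N ^ W ≤ v - u →
    |(count G N u v : ℝ) - series G E N * (v - u) / (Real.log v * Real.log N)| ≤
      ε * (series G E N * (v - u) / (Real.log v * Real.log N))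

open Classical in
/-- for all but `O(X / (log X) ^ A)` of the `N ≤ X` for which `x (N - G(x))` has no fixed prime divisor, the number of the
primes `n` of each window with `N - G(n)` prime is as predicted -/
theorem result (G : ℤ[X]) (hG : 1 ≤ G.natDegree) (hlead : 0 < G.leadingCoeff) (W A : ℕ) (δ ε : ℝ) (hδ : 0 < δ) (hε : 0 < ε) :
    ∃ E₀ B : ℕ, ∀ E : ℕ, E₀ ≤ E → ∃ X₀ : ℕ, ∀ X : ℕ, X₀ ≤ X →
    (((Icc 1 X).filter (fun N : ℕ => NoFixedDivisor G N ∧ ¬ Holds G δ ε W B E N)).card : ℝ) ≤ X / Real.log X ^ A := by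
  obtain ⟨E₀, B, h⟩ := Pool.Agent.H561.PG.gen_all true G G.natDegree hG le_rfl hlead (-1) (Or.inr rfl) W A
    (min δ (1 / 8)) (min ε 1) (by positivity) (min_le_right _ _) (by positivity) (min_le_right _ _)
  refine ⟨E₀, B, fun E hE => ?_⟩
  obtain ⟨X0, h0⟩ := h E hE
  refine ⟨X0, fun X hX => ?_⟩
  refine le_trans ?_ (h0 X hX)
  have hgv : ∀ N n : ℕ, Pool.Agent.H561.PG.gv (Pool.Agent.H561.PG.GF (-1) G N) n = (N : ℤ) - G.eval (n : ℤ) := by
    intro N n
    rw [Pool.Agent.H561.PG.gv_GF]
    unfold Pool.Agent.H561.PG.gv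
    ring
  have hsub : (Icc 1 X).filter (fun N : ℕ => NoFixedDivisor G N ∧ ¬ Holds G δ ε W B E N) ⊆
      (Icc 1 X).filter (fun N : ℕ => Pool.Agent.H561.PG.LSG true (-1) G N ∧
        ¬ Pool.Agent.H561.PG.HoldN true (-1) G G.natDegree (min δ (1 / 8)) (min ε 1) W B E N) := by
    intro N hN
    rw [mem_filter, mem_Icc] at hN ⊢
    obtain ⟨⟨hN1, hNX⟩, hfd, hn⟩ := hN
    refine ⟨⟨hN1, hNX⟩, ?_, ?_⟩
    · intro p hp
      obtain ⟨n, hn⟩ := hfd p hp
      have hp0 : (0 : ℤ) < p := by exact_mod_cast hp.pos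
      obtain ⟨m, hm⟩ : ∃ m : ℕ, m = (n % p).toNat := ⟨_, rfl⟩
      have hmn : (m : ℤ) = n % p := by
        rw [hm]
        exact Int.toNat_of_nonneg (Int.emod_nonneg n hp0.ne')
      have h1 : (p : ℤ) ∣ n - m := by
        rw [hmn]
        exact Int.dvd_self_sub_emod
      have h2 : (p : ℤ) ∣ G.eval n - G.eval (m : ℤ) := dvd_trans h1 (Polynomial.sub_dvd_eval_sub _ _ G)
      have h3 : ¬ (p : ℤ) ∣ (N : ℤ) - G.eval (m : ℤ) := by
        intro h4
        apply hn
        apply dvd_mul_of_dvd_right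
        have := dvd_sub h4 h2
        have e : (N : ℤ) - G.eval (m : ℤ) - (G.eval n - G.eval (m : ℤ)) = N - G.eval n := by ring
        rwa [e] at this
      have h4 : ¬ p ∣ m := by
        intro h5
        apply hn
        apply dvd_mul_of_dvd_left
        have h6 : (p : ℤ) ∣ (m : ℤ) := by exact_mod_cast h5
        have := dvd_add h1 h6
        rwa [sub_add_cancel] at this
      apply Pool.Agent.H561.PG.loc_true_lt _ (Pool.Agent.H561.PG.QP_per _) p hp m _ h4
      unfold Pool.Agent.H561.PG.QP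
      rw [hgv]
      exact h3
    · intro hh
      apply hn
      intro u v hu hv hvB hvu
      have hN1r : (1 : ℝ) ≤ N := by exact_mod_cast hN1
      have hv' : (N : ℝ) ^ (1 / (4 * G.natDegree) + min δ (1 / 8) : ℝ) ≤ v := by
        refine le_trans ?_ hv
        apply Real.rpow_le_rpow_of_exponent_le hN1r
        have := min_le_left δ (1 / 8)
        linarith
      have g := hh u v hu hv' hvB hvu
      have e1 : Pool.Agent.H561.PG.lb true v = Real.log v := by simp [Pool.Agent.H561.PG.lb]
      have e2 : (Pool.Agent.H561.PG.PT true (Pool.Agent.H561.PG.fG (-1) G N) ⌊u⌋₊ ⌊v⌋₊).card = count G N u v := by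
        unfold Pool.Agent.H561.PG.PT count
        congr 1
        apply filter_congr
        intro n _
        unfold Pool.Agent.H561.PG.fG
        rw [hgv]
        simp
      have e3 : Pool.Agent.H561.PG.St true ⌊Real.log N ^ E⌋₊ (Pool.Agent.H561.PG.QP (Pool.Agent.H561.PG.GF (-1) G N)) = series G E N := by
        rw [Pool.Agent.H561.PG.St_prod]
        unfold series Pool.Agent.H373R2.T7.pz
        apply prod_congr rfl
        intro p hp
        rw [mem_filter] at hp
        rw [Pool.Agent.H561.PG.fac_true _ (fun p n => (p : ℤ) ∣ (n : ℤ) * ((N : ℤ) - G.eval (n : ℤ))) p hp.2]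
        · have e5 : Pool.Agent.H373R2.T7.nuB (fun p n => (p : ℤ) ∣ (n : ℤ) * ((N : ℤ) - G.eval (n : ℤ))) p = omega G N p := by
            unfold Pool.Agent.H373R2.T7.nuB omega
            congr 1
            ext r
            simp only [mem_filter]
          rw [e5]
        · intro r _
          unfold Pool.Agent.H561.PG.QP
          rw [hgv]
          constructor
          · intro h5
            rcases (Nat.prime_iff_prime_int.1 hp.2).dvd_or_dvd h5 with h6 | h6
            · left
              exact_mod_cast h6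
            · right
              exact h6
          · rintro (h5 | h5)
            · apply dvd_mul_of_dvd_left
              exact_mod_cast h5
            · exact dvd_mul_of_dvd_right h5 _
      rw [e1, e2, e3] at g
      refine g.trans ?_
      have hv1 : 1 ≤ v := (Real.one_le_rpow hN1r (by positivity)).trans hv'
      have hl0 : 0 ≤ Real.log (N : ℝ) := Real.log_nonneg hN1r
      have hvu0 : 0 ≤ v - u := (div_nonneg (by linarith) (pow_nonneg hl0 W)).trans hvu
      have hs0 : 0 ≤ series G E N := by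
        rw [← e3]
        exact (Pool.Agent.H561.PG.St_mem _ _ _).1
      exact mul_le_mul_of_nonneg_right (min_le_left _ _)
        (div_nonneg (mul_nonneg hs0 hvu0) (mul_nonneg (Real.log_nonneg hv1) hl0))
  exact_mod_cast card_le_card hsub

end Pool.Agent.Results.MP_0bf1d2_nt.SmallArgumentsAlmostAll
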